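import Pool.Agent.helper81.CI.Spec

/-!
# Project ci: module INS
-/

set_option autoImplicit false

open MeasureTheory Set Filter Topology
open scoped ENNReal
open Pool.Agent.helper81.CW Pool.Agent.CL

namespace Pool.Agent.CI

theorem INS (hFAR : FAR_stmt) (hJ2 : J2_stmt) : INS_stmt := by
  intro n C hC
  obtain ⟨hd, hcl, -⟩ := hJ2 n C 1 hC
  obtain ⟨hne, hcp, hcv, -, -⟩ := hC
  have hmem : ∀ x : E n, far C x ≤ 1 ↔ x ∈ C := by
    intro x
    obtain ⟨h1, ⟨c, hc, hcx⟩, -, -⟩ := hFAR n C hcp hne x x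
    constructor
    · intro h
      exact hcl x (fun y hy => le_trans (h1 y hy) h)
    · intro hx
      rw [← hcx]
      exact hd x hx c hc
  have hAZ : ∀ z x : E n, x ∈ AZ C z 1 1 ↔ x ∈ C ∧ (2 : ℝ) • z - x ∈ C := by
    intro z x
    unfold AZ
    rw [Set.mem_setOf_eq, hmem, hmem]
  unfold innerSym NN
  congr 1
  apply le_antisymm
  · refine iSup_le ?_
    rintro ⟨A, hAC, hAcv, c, hAc⟩
    refine le_trans (measure_mono ?_) (le_iSup (fun z : E n => volume (AZ C z 1 1)) c)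
    intro x hx
    exact (hAZ c x).2 ⟨hAC hx, hAC ((hAc x).1 hx)⟩
  · refine iSup_le ?_
    intro z
    have hsub : AZ C z 1 1 ⊆ C := fun x hx => ((hAZ z x).1 hx).1
    have hconv : Convex ℝ (AZ C z 1 1) := by
      intro x hx y hy a b ha hb hab
      obtain ⟨hx1, hx2⟩ := (hAZ z x).1 hx
      obtain ⟨hy1, hy2⟩ := (hAZ z y).1 hy
      refine (hAZ z _).2 ⟨hcv hx1 hy1 ha hb hab, ?_⟩
      have h3 := hcv hx2 hy2 ha hb hab
      have h4 : a • ((2 : ℝ) • z - x) + b • ((2 : ℝ) • z - y) =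
          (2 : ℝ) • z - (a • x + b • y) := by
        have h5 : (2 : ℝ) • z = a • ((2 : ℝ) • z) + b • ((2 : ℝ) • z) := by
          rw [← add_smul, hab, one_smul]
        rw [smul_sub, smul_sub]
        nth_rewrite 3 [h5]
        abel
      rw [← h4]
      exact h3
    have hsym : CentrallySymmetric (AZ C z 1 1) := by
      refine ⟨z, fun x => ?_⟩
      rw [hAZ, hAZ, sub_sub_cancel]
      exact and_comm
    exact le_iSup (fun A : {A : Set (E n) // A ⊆ C ∧ Convex ℝ A ∧ CentrallySymmetric A} =>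
      volume A.1) ⟨AZ C z 1 1, hsub, hconv, hsym⟩

end Pool.Agent.CI
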